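import Mathlib
import Pool.Agent.X20.Doubled
import Pool.Agent.X20.DoubledGF

/-! The sums of squared content-hook products have generating function
`∏ (1-x^{4j-2})^{-1}`. -/

namespace Pool.Agent.Results.MP_80d245_co.SquaredContents

open Finset PowerSeries Pool.Agent.X20.Doubled

/-- `S_sp(n) = ∑_{λ ⊢ n} ∏_{u ∈ λ} (c_sp(u) / h(u))^2`. -/
noncomputable def Ssp (n : ℕ) : ℚ :=
  ∑ μ ∈ diagrams n, ∏ c ∈ μ.cells, ((csp μ c : ℚ) / (hook μ c : ℚ)) ^ 2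

/-- `S_O(n) = ∑_{λ ⊢ n} ∏_{u ∈ λ} (c_O(u) / h(u))^2`. -/
noncomputable def SO (n : ℕ) : ℚ :=
  ∑ μ ∈ diagrams n, ∏ c ∈ μ.cells, ((cO μ c : ℚ) / (hook μ c : ℚ)) ^ 2

theorem SO_eq (n : ℕ) : SO n = Ssp n := by
  unfold Ssp SO
  rw [← sum_transpose]
  apply Finset.sum_congr rfl
  intro μ _
  rw [prod_transpose]
  simp only [csp_transpose, hook_transpose]
  apply Finset.prod_congr rfl
  intro c _
  push_cast
  ring

theorem Ssp_eq (K n : ℕ) (hn : n < 4 * K + 2) :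
    Ssp n = coeff n (∏ k ∈ range K, (1 - X ^ (4 * k + 2)) : ℚ⟦X⟧)⁻¹ := by
  have h1 : (∏ k ∈ range K, (1 - X ^ (4 * k + 2)) : ℚ⟦X⟧) =
      ∏ k ∈ range K, (1 - Z 1 ^ (2 * k + 1)) := by
    apply Finset.prod_congr rfl
    intro k _
    rw [Z_pow, one_pow]
    simp only [map_one, one_mul]
    ring
  rw [h1, coeff_inv _ _ _ hn]
  have h2 := sum_diagrams (fun q => q ^ 2) (by norm_num) (show n < 2 * (2 * K) + 2 by omega)
  have h3 : Ssp n = ∑ μ ∈ diagrams n, wt μ ^ 2 := by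
    unfold Ssp wt
    apply Finset.sum_congr rfl
    intro μ _
    rw [Finset.prod_pow]
  rw [h3]
  refine h2.trans ?_
  apply Finset.sum_congr rfl
  intro S _
  rw [← pow_mul, mul_comm, pow_mul, neg_one_sq, one_pow]

/-- For every `K` and every `n < 4K + 2`, the sums `S_sp(n)` and `S_O(n)` are equal to the
coefficient of `x^n` in `∏_{j=1}^{K} (1 - x^{4j-2})^{-1}`.  (The factors with `j > K` do not
influence the coefficients of `x^n` with `n < 4K+2`; so this is the formal identity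
`∑ S_sp(n) x^n = ∑ S_O(n) x^n = ∏_{j ≥ 1} (1 - x^{4j-2})^{-1}`.) -/
theorem result : ∀ K n : ℕ, n < 4 * K + 2 →
    Ssp n = coeff n (∏ k ∈ range K, (1 - X ^ (4 * k + 2)) : ℚ⟦X⟧)⁻¹ ∧
    SO n = coeff n (∏ k ∈ range K, (1 - X ^ (4 * k + 2)) : ℚ⟦X⟧)⁻¹ := by
  intro K n hn
  exact ⟨Ssp_eq K n hn, by rw [SO_eq, Ssp_eq K n hn]⟩

end Pool.Agent.Results.MP_80d245_co.SquaredContents
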